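import Mathlib
import Pool.Agent.Lib.NRC.E3

set_option autoImplicit false

namespace Pool.Agent.Results.MP_2e017d_ag.NotRuled

/-- For every `N ≥ 3` and every odd `m ≥ 4 N (N - 2)` there is a complex variety `X` of
dimension `N` (given by its function field `L`) with unirational parametrisations `P^N ⇢ X` of
degrees exactly `2` and `m`, which is not ruled (not birational to `Y × P^1`) and not rational. -/
theorem result (N m : ℕ) (hN : 3 ≤ N) (hm : Odd m) (h : 4 * N * (N - 2) ≤ m) :
    ∃ (L : Type) (_ : Field L) (_ : Algebra ℂ L),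
      (⊤ : IntermediateField ℂ L).FG ∧ Algebra.trdeg ℂ L = N ∧
      (∃ φ ψ : L →ₐ[ℂ] FractionRing (MvPolynomial (Fin N) ℂ),
        Module.finrank φ.fieldRange (FractionRing (MvPolynomial (Fin N) ℂ)) = 2 ∧
        Module.finrank ψ.fieldRange (FractionRing (MvPolynomial (Fin N) ℂ)) = m) ∧
      (¬∃ (M : IntermediateField ℂ L) (x : L),
        Transcendental M x ∧ IntermediateField.adjoin M {x} = ⊤) ∧
      IsEmpty (L ≃ₐ[ℂ] FractionRing (MvPolynomial (Fin N) ℂ)) :=
  Pool.Agent.Lib.NRC.main N m hN hm h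

end Pool.Agent.Results.MP_2e017d_ag.NotRuled
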