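import Mathlib
import Pool.Agent.Lib.CPD.E

set_option autoImplicit false

namespace Pool.Agent.Results.MP_2e017d_ag.StableGcd

/-- Let `K` be the function field of a variety `X` of dimension `n` over a field `k` of
characteristic zero. Suppose that a finite extension `K(t_1, ..., t_m) → L` factors through a
localisation of a polynomial ring over `k`: a rational map from affine `N`-space to `X × P^m` has a
rational multisection of degree `d = [L : K(t)]`. Then `X` has finitely many unirational
parametrisations `P^n ⇢ X` such that the gcd of their degrees divides `d`. In particular
(`d = 1`) stably rational and retract rational varieties have unirational parametrisations of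
coprime degrees. -/
theorem result (k K L : Type) [Field k] [CharZero k] [Field K] [Algebra k K] [Field L]
    [Algebra k L] (n m N : ℕ) (hfg : (⊤ : IntermediateField k K).FG)
    (hn : Algebra.trdeg k K = n) (M : Submonoid (MvPolynomial (Fin N) k))
    (α : FractionRing (MvPolynomial (Fin m) K) →ₐ[k] Localization M)
    (β : Localization M →ₐ[k] L) (hL : FiniteDimensional (β.comp α).fieldRange L) :
    ∃ s : Finset (K →ₐ[k] FractionRing (MvPolynomial (Fin n) k)),
      (∀ φ ∈ s, FiniteDimensional φ.fieldRange (FractionRing (MvPolynomial (Fin n) k))) ∧
      (s.gcd fun φ => Module.finrank φ.fieldRange (FractionRing (MvPolynomial (Fin n) k))) ∣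
        Module.finrank (β.comp α).fieldRange L :=
  Pool.Agent.Lib.CPD.main hfg hn M α β hL

end Pool.Agent.Results.MP_2e017d_ag.StableGcd
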